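import Pool.Agent.Helper597.SupportSets

/-!
# Support sets in Banach spaces of density greater than the continuum
-/

set_option autoImplicit false

open Cardinal

namespace Pool.Agent.Results.MP_3e6028_an.AboveContinuum

/-- Every real Banach space of density character greater than the continuum contains a support set:
a non-empty closed convex set `C` each of whose points `x` is a proper support point, that is, some
continuous functional attains its infimum over `C` at `x` and is not constant on `C`. -/
theorem result (X : Type*) [NormedAddCommGroup X] [NormedSpace ℝ X] [CompleteSpace X]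
    (hX : ∀ D : Set X, Dense D → 𝔠 < #D) :
    ∃ C : Set X, IsClosed C ∧ Convex ℝ C ∧ C.Nonempty ∧
      ∀ x ∈ C, ∃ f : X →L[ℝ] ℝ, (∀ y ∈ C, f x ≤ f y) ∧ ∃ y ∈ C, f x < f y := by
  have h : 𝔠 < #X := by
    have h1 := hX Set.univ dense_univ
    rwa [Cardinal.mk_univ] at h1
  obtain ⟨B, hB, h1, h2⟩ := Pool.Agent.Helper597.SupportSets.exists_biorth h
  exact Pool.Agent.Helper597.SupportSets.support_of_biorth B hB h1 h2

end Pool.Agent.Results.MP_3e6028_an.AboveContinuum
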